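import Pool.Agent.Helper45.LS.T3
import Pool.Agent.Helper85.LR.L6

set_option autoImplicit false

/-!
Link certificates: the numerical form of the link lemma from the kernel checks.
-/

namespace LS

open KF

/-- The link lemma of a certificate. -/
theorem linkL {C : LT} {TN TD QL QH : ℕ} (h : Ok C TN TD QL QH)
    (hc : ∀ k < 20, chk C k = true) (hB : 0 < C.B) (hS : 0 < C.SC) :
    LR.LinkL ((TN : ℝ) / TD) ((C.A : ℝ) / C.B) (((C.VP : ℝ) - C.VM) / C.SC) ((C.VQ : ℝ) / C.SC)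
      ((C.CI : ℝ) / C.SC) ((C.CO : ℝ) / C.SC) ((QL : ℝ) / C.SC) ((QH : ℝ) / C.SC) := by
  have h1 := LR.linkL (ofLT_good h) (by change (0 : ℤ) < (C.B : ℤ); exact_mod_cast hB)
    (by change (0 : ℤ) < (C.SC : ℤ); exact_mod_cast hS) AL_ne AL_inj AL_D6 AL_zero
    (fun V _ E κ v φ hE => point E κ v hE C hc φ)
  have e1 : ((ofLT C).A : ℝ) = C.A := Int.cast_natCast _
  have e2 : ((ofLT C).B : ℝ) = C.B := Int.cast_natCast _
  have e3 : ((ofLT C).VN : ℝ) = (C.VP : ℝ) - C.VM := by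
    change (((C.VP : ℤ) - C.VM : ℤ) : ℝ) = _
    push_cast
    rfl
  have e4 : ((ofLT C).VQ : ℝ) = C.VQ := Int.cast_natCast _
  have e5 : ((ofLT C).CPi : ℝ) = C.CI := Int.cast_natCast _
  have e6 : ((ofLT C).CPo : ℝ) = C.CO := Int.cast_natCast _
  have e7 : ((ofLT C).SC : ℝ) = C.SC := Int.cast_natCast _
  rw [e1, e2, e3, e4, e5, e6, e7] at h1
  exact h1

/-- Weaker numbers. -/
theorem mono {τ m a a' q ci co QL QL' QH QH' : ℝ} (h : LR.LinkL τ m a q ci co QL QH)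
    (ha : a ≤ a') (hl : QL' ≤ QL) (hh : QH ≤ QH') : LR.LinkL τ m a' q ci co QL' QH' := by
  intro V iV E w κ hE hw ht v hm
  obtain ⟨i, Qb, h1, h2, h3⟩ := h V iV E w κ hE hw ht v hm
  exact ⟨i, Qb, hl.trans h1, h2.trans hh, h3.trans (by linarith)⟩

end LS
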