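import Pool.Agent.Helper45.LS.G1

set_option autoImplicit false

/-!
Coloured samples of four vertices: the symmetrised sum and its reduction to representatives.
-/

namespace LS

open KF Finset

/-- The symmetrised sum. -/
def S (h : ℕ → ℤ) (m : Fin 4 → Fin 4 → Bool) (c : Fin 4 → Fin 6) : ℤ :=
  ∑ s ∈ range 10, ∑ t ∈ range 24,
    h (mk (fun i j => m (pF t i) (pF t j)) (fun i => aF s (c (pF t i))))

theorem S_act (h : ℕ → ℤ) (m : Fin 4 → Fin 4 → Bool) (c : Fin 4 → Fin 6) {u q : ℕ}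
    (hu : u < 10) (hq : q < 24) :
    S h (fun i j => m (pF q i) (pF q j)) (fun i => aF u (c (pF q i))) = S h m c := by
  unfold S
  refine sum_nbij' (fun s => amul s u) (fun s => amul s (ainv u)) ?_ ?_ ?_ ?_ ?_
  · intro s hs
    exact mem_range.2 (amul_ok u hu s (mem_range.1 hs)).1
  · intro s hs
    exact mem_range.2 (amul_ok u hu s (mem_range.1 hs)).2.1
  · intro s hs
    exact (amul_ok u hu s (mem_range.1 hs)).2.2.1
  · intro s hs
    exact (amul_ok u hu s (mem_range.1 hs)).2.2.2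
  · intro s hs
    refine sum_nbij' (pmul q) (pmul (pinv q)) ?_ ?_ ?_ ?_ ?_
    · intro t ht
      exact mem_range.2 (pmul_ok q hq t (mem_range.1 ht)).1
    · intro t ht
      exact mem_range.2 (pmul_ok q hq t (mem_range.1 ht)).2.1
    · intro t ht
      exact (pmul_ok q hq t (mem_range.1 ht)).2.2.1
    · intro t ht
      exact (pmul_ok q hq t (mem_range.1 ht)).2.2.2
    · intro t ht
      simp only [pF_mul q hq t (mem_range.1 ht), aF_mul s (mem_range.1 hs) u hu]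

/-- Link relations. -/
structure Lk (m : Fin 4 → Fin 4 → Bool) : Prop where
  sym : ∀ i j, m i j = m j i
  irr : ∀ i, m i i = false
  free : ∀ i j k, m i j = true → m i k = true → m j k = true → False

/-- The relation with given entries. -/
def rel (b0 b1 b2 b3 b4 b5 : Bool) (i j : Fin 4) : Bool :=
  [false, b0, b1, b3, b0, false, b2, b4, b1, b2, false, b5, b3, b4, b5, false].getD
    (4 * i.1 + j.1) false

theorem rel_mB : ∀ b0 b1 b2 b3 b4 b5 : Bool, ∀ i j : Fin 4,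
    mB (b0.toNat + 2 * b1.toNat + 4 * b2.toNat + 8 * b3.toNat + 16 * b4.toNat + 32 * b5.toNat) i j =
      rel b0 b1 b2 b3 b4 b5 i j := by decide +kernel

theorem Lk.rel {m : Fin 4 → Fin 4 → Bool} (hm : Lk m) (i j : Fin 4) :
    m i j = LS.rel (m 0 1) (m 0 2) (m 1 2) (m 0 3) (m 1 3) (m 2 3) i j := by
  fin_cases i <;> fin_cases j
  · exact hm.irr 0
  · rfl
  · rfl
  · rfl
  · exact hm.sym 1 0
  · exact hm.irr 1
  · rfl
  · rfl
  · exact hm.sym 2 0
  · exact hm.sym 2 1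
  · exact hm.irr 2
  · rfl
  · exact hm.sym 3 0
  · exact hm.sym 3 1
  · exact hm.sym 3 2
  · exact hm.irr 3

theorem Lk.eq {m : Fin 4 → Fin 4 → Bool} (hm : Lk m) : mB (mkm m) = m := by
  funext i j
  rw [hm.rel i j]
  exact rel_mB _ _ _ _ _ _ i j

theorem mkm_lt (m : Fin 4 → Fin 4 → Bool) : mkm m < 64 := by
  have h : ∀ b : Bool, b.toNat < 2 := by decide
  unfold mkm
  have h0 := h (m 0 1)
  have h1 := h (m 0 2)
  have h2 := h (m 1 2)
  have h3 := h (m 0 3)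
  have h4 := h (m 1 3)
  have h5 := h (m 2 3)
  omega

theorem Lk.act {m : Fin 4 → Fin 4 → Bool} (hm : Lk m) (t : ℕ) :
    Lk (fun i j => m (pF t i) (pF t j)) :=
  ⟨fun _ _ => hm.sym _ _, fun _ => hm.irr _, fun _ _ _ => hm.free _ _ _⟩

/-- No triangle. -/
def tf (μ : ℕ) : Bool :=
  !(mB μ 0 1 && mB μ 0 2 && mB μ 1 2) && !(mB μ 0 1 && mB μ 0 3 && mB μ 1 3) &&
    !(mB μ 0 2 && mB μ 0 3 && mB μ 2 3) && !(mB μ 1 2 && mB μ 1 3 && mB μ 2 3)

theorem Lk.tf {m : Fin 4 → Fin 4 → Bool} (hm : Lk m) : tf (mkm m) = true := by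
  have h : ∀ i j k : Fin 4, (m i j && m i k && m j k) = false := by
    intro i j k
    cases h1 : m i j
    · rfl
    · cases h2 : m i k
      · rfl
      · cases h3 : m j k
        · rfl
        · exact (hm.free i j k h1 h2 h3).elim
  unfold LS.tf
  rw [hm.eq, h, h, h, h]
  rfl

/-- Colours from a number. -/
def cF (n : ℕ) (i : Fin 4) : Fin 6 := ⟨n / 6 ^ i.1 % 6, Nat.mod_lt _ (by norm_num)⟩

/-- Hints. -/
def hk (n : ℕ) : ℕ := ent HT 14 n / 512
/-- Hints. -/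
def hq (n : ℕ) : ℕ := ent HT 14 n / 16 % 32
/-- Hints. -/
def hu (n : ℕ) : ℕ := ent HT 14 n % 16

theorem red1 : ∀ n < 1296, hu n < 10 ∧ hq n < 24 ∧ hk n < 20 ∧
    ∀ i : Fin 4, aF (hu n) (cF n (pF (hq n) i)) = cP (hk n) i := by decide +kernel

theorem cF_eq (c : Fin 4 → Fin 6) :
    cF ((c 0).1 + 6 * (c 1).1 + 36 * (c 2).1 + 216 * (c 3).1) = c := by
  funext i
  apply Fin.ext
  have h0 := (c 0).2
  have h1 := (c 1).2
  have h2 := (c 2).2
  have h3 := (c 3).2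
  fin_cases i
  · change ((c 0).1 + 6 * (c 1).1 + 36 * (c 2).1 + 216 * (c 3).1) / 1 % 6 = (c 0).1
    omega
  · change ((c 0).1 + 6 * (c 1).1 + 36 * (c 2).1 + 216 * (c 3).1) / 6 % 6 = (c 1).1
    omega
  · change ((c 0).1 + 6 * (c 1).1 + 36 * (c 2).1 + 216 * (c 3).1) / 36 % 6 = (c 2).1
    omega
  · change ((c 0).1 + 6 * (c 1).1 + 36 * (c 2).1 + 216 * (c 3).1) / 216 % 6 = (c 3).1
    omega

theorem cF_lt (c : Fin 4 → Fin 6) :
    (c 0).1 + 6 * (c 1).1 + 36 * (c 2).1 + 216 * (c 3).1 < 1296 := by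
  have h0 := (c 0).2
  have h1 := (c 1).2
  have h2 := (c 2).2
  have h3 := (c 3).2
  omega

/-- Reduction of the mask, hints. -/
def r2u (k μ : ℕ) : ℕ := ent R2T 9 (64 * k + μ) % 16
/-- Reduction of the mask, hints. -/
def r2q (k μ : ℕ) : ℕ := ent R2T 9 (64 * k + μ) / 16

theorem red2 : ∀ k < 20, ∀ μ < 64, tf μ = true → r2u k μ < 10 ∧ r2q k μ < 24 ∧
    (∀ i : Fin 4, aF (r2u k μ) (cP k (pF (r2q k μ) i)) = cP k i) ∧
    RK.testBit (64 * k + mkm (fun i j => mB μ (pF (r2q k μ) i) (pF (r2q k μ) j))) = true := by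
  decide +kernel

/-- Reduction to the representatives. -/
theorem S_nonneg {h : ℕ → ℤ}
    (H : ∀ k < 20, ∀ μ < 64, RK.testBit (64 * k + μ) = true → 0 ≤ S h (mB μ) (cP k))
    {m : Fin 4 → Fin 4 → Bool} (hm : Lk m) (c : Fin 4 → Fin 6) : 0 ≤ S h m c := by
  obtain ⟨a1, a2, a3, a4⟩ := red1 _ (cF_lt c)
  rw [cF_eq] at a4
  set n := (c 0).1 + 6 * (c 1).1 + 36 * (c 2).1 + 216 * (c 3).1
  rw [← S_act h m c a1 a2]
  have e1 : (fun i => aF (hu n) (c (pF (hq n) i))) = cP (hk n) := funext a4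
  rw [e1]
  have hm' := hm.act (hq n)
  set m' := fun i j => m (pF (hq n) i) (pF (hq n) j) with hm'e
  obtain ⟨b1, b2, b3, b4⟩ := red2 (hk n) a3 (mkm m') (mkm_lt m') hm'.tf
  rw [hm'.eq] at b4
  set q := r2q (hk n) (mkm m')
  set u := r2u (hk n) (mkm m')
  rw [← S_act h m' (cP (hk n)) b1 b2]
  have e2 : (fun i => aF u (cP (hk n) (pF q i))) = cP (hk n) := funext b3
  rw [e2, ← (hm'.act q).eq]
  exact H (hk n) a3 _ (mkm_lt _) b4

end LS
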