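import Pool.Agent.Helper85.KL.R4

set_option autoImplicit false

/-!
Pull-back of positive semidefinite forms (helper85's lemma `KR.psd_pull`).
-/

namespace LS

open Finset hiding dens
open KF

theorem psd_pull {n m : ℕ} {q : ℕ → ℕ → ℝ} (hq : Psd m q) (I : ℕ → ℕ) (P : ℕ → Prop)
    [DecidablePred P] (hI : ∀ a, P a → I a < m) :
    Psd n (fun a b => if P a ∧ P b then q (I a) (I b) else 0) := by
  intro f
  have h := hq (fun i => ∑ a ∈ range n, if P a ∧ I a = i then f a else 0)
  refine h.trans_eq ?_
  have e1 : ∀ i j, q i j * (∑ a ∈ range n, if P a ∧ I a = i then f a else 0) *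
      (∑ b ∈ range n, if P b ∧ I b = j then f b else 0) =
      ∑ a ∈ range n, ∑ b ∈ range n, q i j * ((if P a ∧ I a = i then f a else 0) *
        (if P b ∧ I b = j then f b else 0)) := by
    intro i j
    rw [mul_assoc, sum_mul_sum, mul_sum]
    exact sum_congr rfl fun a _ => by rw [mul_sum]
  simp only [e1]
  have e2 : (∑ i ∈ range m, ∑ j ∈ range m, ∑ a ∈ range n, ∑ b ∈ range n,
      q i j * ((if P a ∧ I a = i then f a else 0) * (if P b ∧ I b = j then f b else 0))) =
      ∑ a ∈ range n, ∑ b ∈ range n, ∑ i ∈ range m, ∑ j ∈ range m,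
      q i j * ((if P a ∧ I a = i then f a else 0) * (if P b ∧ I b = j then f b else 0)) := by
    have g1 : ∀ i ∈ range m, (∑ j ∈ range m, ∑ a ∈ range n, ∑ b ∈ range n,
      q i j * ((if P a ∧ I a = i then f a else 0) * (if P b ∧ I b = j then f b else 0))) =
      ∑ a ∈ range n, ∑ j ∈ range m, ∑ b ∈ range n,
      q i j * ((if P a ∧ I a = i then f a else 0) * (if P b ∧ I b = j then f b else 0)) :=
      fun i _ => sum_comm
    rw [sum_congr rfl g1, sum_comm]
    refine sum_congr rfl fun a _ => ?_
    rw [sum_comm]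
    have g2 : ∀ j ∈ range m, (∑ i ∈ range m, ∑ b ∈ range n,
      q i j * ((if P a ∧ I a = i then f a else 0) * (if P b ∧ I b = j then f b else 0))) =
      ∑ b ∈ range n, ∑ i ∈ range m,
      q i j * ((if P a ∧ I a = i then f a else 0) * (if P b ∧ I b = j then f b else 0)) :=
      fun j _ => sum_comm
    rw [sum_congr rfl g2, sum_comm]
    exact sum_congr rfl fun b _ => sum_comm
  rw [e2]
  refine sum_congr rfl fun a _ => sum_congr rfl fun b _ => ?_
  by_cases ha : P a
  · by_cases hb : P b
    · rw [if_pos ⟨ha, hb⟩, sum_eq_single (I a), sum_eq_single (I b)]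
      · rw [if_pos ⟨ha, rfl⟩, if_pos ⟨hb, rfl⟩]
        ring
      · intro j _ hj
        rw [if_neg (fun h : P b ∧ I b = j => hj h.2.symm)]
        ring
      · intro hj
        exact absurd (mem_range.2 (hI b hb)) hj
      · intro i _ hi
        refine sum_eq_zero fun j _ => ?_
        rw [if_neg (fun h => hi h.2.symm)]
        ring
      · intro hj
        exact absurd (mem_range.2 (hI a ha)) hj
    · rw [if_neg (fun h => hb h.2), zero_mul, zero_mul]
      refine sum_eq_zero fun i _ => sum_eq_zero fun j _ => ?_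
      rw [if_neg (fun h : P b ∧ I b = j => hb h.1)]
      ring
  · rw [if_neg (fun h => ha h.1), zero_mul, zero_mul]
    refine sum_eq_zero fun i _ => sum_eq_zero fun j _ => ?_
    rw [if_neg (fun h : P a ∧ I a = i => ha h.1)]
    ring

end LS
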