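import Pool.Agent.Helper45.LS.G3
import Pool.Agent.Helper85.LR.L3
import Pool.Agent.Helper45.LS.P0
import Pool.Agent.Helper25.K4.Parts

set_option autoImplicit false

/-!
Link certificates: packed tables and the certificate they define.
-/

namespace LS

open KF
open KC (BT Tab fc fc_eq land_mod shift_div PsdT)

/-- Types of pair codes. -/
def TYt : Nat := 0xffffffffffffffffffffffffffffffffffffffffffffffffffffffffffff98ffffffffffffffffffffffffffffff76ffffffffffffff5432ffffffffffffff10
/-- Full types of pair codes. -/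
def QYt : Nat := 0xaaaaaaaaaaaaaaaaaaaaaaaaaaaaaaaaaaaa547676989832aaaa765498769832aaaa769854987632aaaa987698547632aaaa989876765432aaaa323232323210
/-- Indices of pair codes. -/
def I0t : Nat := 0xa689e68e275c5542ca0000009e69648606da4d22480000008e28607de6584501c600000075c6da6585d63ce1440000005544d24503ce34c0c20000002ca2481c61440c2040
/-- Indices of flags. -/
def FXt : Nat := 0x460f039ac02d49020e601483008200000000000bdab49ca307b9ac5a928398a418820
/-- Both colours zero. -/
def Zt : Nat := 0x3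
/-- Block with the colour zero. -/
def D0t : Nat := 0x3c00c300c0c030c00f00000
/-- Missing pairs. -/
def M0t : Nat := 0x14004100404010400500000
/-- Pairs in blocks, packed. -/
def EDt : Nat := 0xa002200880220028000000000000a00000028008208800820000000000022002800000a000202080800000000008800820a00000008020208000000000220088002020802000000a000000000028008200808020800a00000
/-- Doubly covered blocks through zero. -/
def MIt : Nat := 0xe800000000000000e800000000000000000000000000000000000000e8e80000000000000000000000000000000000000000000000000000e80000000000000000000000000000000000000000000000e800000000000000000000e80000e800000000000000000000000000000000000000000000000000e800000000000000000000000000000000000000000000000000000000000000e80000e8000000e80000000000000000000000000000000000000000000000000000000000000000e80000000000000000000000000000000000000000000000e8000000e80000e800000000000000000000000000000000000000000000000000000000000000000000000000000000e800000000000000e8000000000000000000000000e8e8000000000000000000000000000000000000000000e8e80000000000e80000e800000000e8000000e800000000e80000e80000000000e8e800000000000000000000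
/-- Doubly covered blocks avoiding zero. -/
def MOt : Nat := 0xe8000000000000e8000000000000e800e800000000e800e80000000000000000000000000000000000000000000000000000000000000000e80000000000000000000000000000e8e80000000000e80000000000e800e80000000000000000000000000000000000000000000000000000000000000000e800000000000000e8e80000000000000000000000e8e800000000000000e80000000000000000000000000000000000000000000000000000000000000000e800e80000000000e80000000000e8e80000000000000000000000000000e80000000000000000000000000000000000000000000000000000000000000000e800e800000000e800e8000000000000e8000000000000e800000000000000000000000000000000000000000000000000000000000000000000000000000000000000000000000000000000000000000000000000000000000000000000000000000000000000000000000000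

/-- A bit. -/
def b1 (X i : Nat) : Nat := Nat.land (Nat.shiftRight X i) 1
/-- Type of a pair code. -/
def ty (r : Nat) : Nat := KC.ent TYt 4 15 r
/-- Full type of a pair code. -/
def qy (r : Nat) : Nat := KC.ent QYt 4 15 r
/-- Index of a pair code. -/
def i0 (r : Nat) : Nat := KC.ent I0t 6 63 r
/-- Index of a flag. -/
def fx (b f : Nat) : Nat := KC.ent FXt 5 31 (Nat.add (Nat.mul 32 b) f)
/-- A digit of 96 bits. -/
def d96 (X i : Nat) : Nat := KC.ent X 96 79228162514264337593543950335 i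

/-- The data of a link certificate. -/
structure LT where
  T : Tab
  MT : Nat
  OT : Nat
  QT : Nat
  IM : BT
  A : Nat
  B : Nat
  VP : Nat
  VM : Nat
  VQ : Nat
  CI : Nat
  CO : Nat
  SC : Nat

/-- Pair code of a triple code. -/
def rr (t : Nat) : Nat := Nat.add (Nat.mul 2 (Nat.land (Nat.shiftRight t 3) 63)) (Nat.land t 1)
/-- Flag of a triple code. -/
def ff (t : Nat) : Nat :=
  Nat.add (Nat.mul 4 (Nat.shiftRight t 9)) (Nat.land (Nat.shiftRight t 1) 3)
/-- Row of the colour equations. -/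
noncomputable def irow (C : LT) (t : Nat) : Nat :=
  C.IM.get (Nat.add (Nat.mul 32 (ty (rr t))) (fx (Nat.land t 1) (ff t)))

/-- The certificate. -/
noncomputable def ofLT (C : LT) : LR.Cert where
  S0 a b := C.T.qi 10 (i0 a) (i0 b)
  S2 r a b := if r < 128 ∧ ty r < 10 then C.T.qi (ty r) (fx (r % 2) a) (fx (r % 2) b) else 0
  Mm r := if r < 128 ∧ ty r < 10 then (d96 C.MT (ty r) : ℤ) else 0
  Oo r j := if r < 128 ∧ ty r < 10 then (d96 C.OT (6 * ty r + j) : ℤ) else 0
  Qz r := (d96 C.QT (qy r) : ℤ)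
  Ii t j := if t < 4096 ∧ ty (rr t) < 10 then (d96 (irow C t) j : ℤ) - C.T.OFF else 0
  NI t := if t < 4096 ∧ ty (rr t) < 10 then (d96 (irow C t) 6 : ℤ) else 0
  A := C.A
  B := C.B
  VN := (C.VP : ℤ) - C.VM
  VQ := C.VQ
  CPi := C.CI
  CPo := C.CO
  SC := C.SC

/-- Data facts. -/
structure Ok (C : LT) (TN TD QL QH : Nat) : Prop where
  psd : ∀ t < 11, PsdT C.T t
  nf : ∀ t < 10, C.T.nf t = if t % 2 = 0 then 24 else 18
  nf0 : C.T.nf 10 = 42
  q : ∀ i < 16, QL ≤ d96 C.QT i ∧ d96 C.QT i ≤ QH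
  i0 : ∀ i < 320, ∑ j : Fin 6, ((d96 (C.IM.get i) j : ℤ) - C.T.OFF) = 0
  i : ∀ i < 320, (TN : ℤ) ^ 2 * ∑ j : Fin 6, ((d96 (C.IM.get i) j : ℤ) - C.T.OFF) ^ 2 ≤
    (((TD * d96 (C.IM.get i) 6) ^ 2 : ℕ) : ℤ)
  td : 0 < TD

theorem i0_lt : ∀ a < 128, i0 a < 42 := by decide +kernel

theorem fx_lt : ∀ r < 128, ty r < 10 → ∀ a < 32, fx (r % 2) a <
    if ty r % 2 = 0 then 24 else 18 := by decide +kernel

theorem ty_i : ∀ r < 128, ty r < 10 → ∀ b < 2, ∀ a < 32, Nat.add (Nat.mul 32 (ty r)) (fx b a) < 320 := by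
  decide +kernel

theorem land1 (x : Nat) : Nat.land x 1 = x % 2 := land_mod x 1
theorem land3 (x : Nat) : Nat.land x 3 = x % 4 := land_mod x 2
theorem land7 (x : Nat) : Nat.land x 7 = x % 8 := land_mod x 3
theorem land15 (x : Nat) : Nat.land x 15 = x % 16 := land_mod x 4
theorem land63 (x : Nat) : Nat.land x 63 = x % 64 := land_mod x 6
theorem land511 (x : Nat) : Nat.land x 511 = x % 512 := land_mod x 9
theorem land4095 (x : Nat) : Nat.land x 4095 = x % 4096 := land_mod x 12

theorem rr_eq (t : Nat) : rr t = 2 * (t / 8 % 64) + t % 2 := by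
  unfold rr
  rw [land63, land1, shift_div]
  rfl

theorem ff_eq (t : Nat) : ff t = 4 * (t / 512) + t / 2 % 4 := by
  unfold ff
  rw [land3, shift_div, shift_div]
  rfl

theorem rr_lt (t : Nat) (h : t < 4096) : rr t < 128 ∧ ff t < 32 ∧ Nat.land t 1 < 2 := by
  rw [rr_eq, ff_eq, land1]
  omega

theorem qy_lt (r : Nat) : qy r < 16 := by
  unfold qy KC.ent
  rw [land15]
  exact Nat.mod_lt _ (by norm_num)

theorem ofLT_good {C : LT} {TN TD QL QH : Nat} (h : Ok C TN TD QL QH) :
    (ofLT C).Good ((TN : ℝ) / TD) QL QH where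
  s0 := by
    have h1 : Psd (C.T.nf 10) (fun f g => ((C.T.qi 10 f g : ℤ) : ℝ)) := h.psd 10 (by norm_num)
    have h2 := psd_pull (n := 128) h1 (fun a => i0 a) (fun a => a < 128) (fun a ha => by
      rw [h.nf0]; exact i0_lt a ha)
    refine fun f => (h2 f).trans_eq (Finset.sum_congr rfl fun a ha =>
      Finset.sum_congr rfl fun b hb => ?_)
    change (if a < 128 ∧ b < 128 then ((C.T.qi 10 (i0 a) (i0 b) : ℤ) : ℝ) else 0) * f a * f b = _
    rw [if_pos ⟨Finset.mem_range.1 ha, Finset.mem_range.1 hb⟩]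
    rfl
  s2 := by
    intro r
    by_cases hr : r < 128 ∧ ty r < 10
    · have h1 : Psd (C.T.nf (ty r)) (fun f g => ((C.T.qi (ty r) f g : ℤ) : ℝ)) :=
        h.psd _ (lt_trans hr.2 (by norm_num))
      have h2 := psd_pull (n := 32) h1 (fun a => fx (r % 2) a) (fun a => a < 32)
        (fun a ha => by rw [h.nf _ hr.2]; exact fx_lt r hr.1 hr.2 a ha)
      refine fun f => (h2 f).trans_eq (Finset.sum_congr rfl fun a ha =>
        Finset.sum_congr rfl fun b hb => ?_)
      change (if a < 32 ∧ b < 32 then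
        ((C.T.qi (ty r) (fx (r % 2) a) (fx (r % 2) b) : ℤ) : ℝ) else 0) * f a * f b = _
      rw [if_pos ⟨Finset.mem_range.1 ha, Finset.mem_range.1 hb⟩]
      change _ = (((if r < 128 ∧ ty r < 10 then C.T.qi (ty r) (fx (r % 2) a) (fx (r % 2) b)
        else 0 : ℤ)) : ℝ) * f a * f b
      rw [if_pos hr]
    · intro f
      refine Finset.sum_nonneg fun a _ => Finset.sum_nonneg fun b _ => ?_
      change 0 ≤ (((if r < 128 ∧ ty r < 10 then C.T.qi (ty r) (fx (r % 2) a) (fx (r % 2) b)
        else 0 : ℤ)) : ℝ) * f a * f b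
      rw [if_neg hr]
      simp
  m := by
    intro r
    change 0 ≤ (if r < 128 ∧ ty r < 10 then (d96 C.MT (ty r) : ℤ) else 0)
    split
    · exact Int.natCast_nonneg _
    · exact le_rfl
  o := by
    intro r j
    change 0 ≤ (if r < 128 ∧ ty r < 10 then (d96 C.OT (6 * ty r + j) : ℤ) else 0)
    split
    · exact Int.natCast_nonneg _
    · exact le_rfl
  ql := by
    intro r
    change (QL : ℝ) ≤ (((d96 C.QT (qy r) : ℕ) : ℤ) : ℝ)
    exact_mod_cast (h.q _ (qy_lt r)).1
  qh := by
    intro r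
    change (((d96 C.QT (qy r) : ℕ) : ℤ) : ℝ) ≤ (QH : ℝ)
    exact_mod_cast (h.q _ (qy_lt r)).2
  i0 := by
    intro t
    change ∑ j : Fin 6, (if t < 4096 ∧ ty (rr t) < 10 then
      (d96 (irow C t) j : ℤ) - C.T.OFF else 0) = 0
    by_cases ht : t < 4096 ∧ ty (rr t) < 10
    · simp only [if_pos ht]
      obtain ⟨g1, g2, g3⟩ := rr_lt t ht.1
      exact h.i0 _ (ty_i _ g1 ht.2 _ g3 _ g2)
    · simp only [if_neg ht, Finset.sum_const_zero]
  i := by
    intro t
    change (∑ j : Fin 6, (((if t < 4096 ∧ ty (rr t) < 10 then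
      (d96 (irow C t) j : ℤ) - C.T.OFF else 0 : ℤ)) : ℝ) ^ 2) * ((TN : ℝ) / TD) ^ 2 ≤
      (((if t < 4096 ∧ ty (rr t) < 10 then (d96 (irow C t) 6 : ℤ) else 0 : ℤ)) : ℝ) ^ 2
    by_cases ht : t < 4096 ∧ ty (rr t) < 10
    · simp only [if_pos ht]
      obtain ⟨g1, g2, g3⟩ := rr_lt t ht.1
      have h1 := h.i _ (ty_i _ g1 ht.2 _ g3 _ g2)
      have hp : (0 : ℝ) < (TD : ℝ) ^ 2 := by
        have : (0 : ℝ) < TD := by exact_mod_cast h.td
        positivity
      have h5 : (((TN : ℤ) ^ 2 * ∑ j : Fin 6,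
          ((d96 (irow C t) j : ℤ) - C.T.OFF) ^ 2 : ℤ) : ℝ) ≤
          ((((TD * d96 (irow C t) 6) ^ 2 : ℕ) : ℤ) : ℝ) := by exact_mod_cast h1
      rw [div_pow, mul_div_assoc', div_le_iff₀ hp]
      push_cast at h5 ⊢
      rw [mul_pow] at h5
      linarith
    · simp only [if_neg ht]
      simp
  ni := by
    intro t
    change 0 ≤ (if t < 4096 ∧ ty (rr t) < 10 then (d96 (irow C t) 6 : ℤ) else 0)
    split
    · exact Int.natCast_nonneg _
    · exact le_rfl
  ci := Int.natCast_nonneg _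
  co := Int.natCast_nonneg _

/-! Kernel checks of the data facts. -/

/-- Distance of natural numbers. -/
def ab (x y : Nat) : Nat := Nat.add (Nat.sub x y) (Nat.sub y x)

theorem ab_cast (x y : Nat) : ((ab x y : ℕ) : ℤ) = |(x : ℤ) - y| := by
  change (((x - y) + (y - x) : ℕ) : ℤ) = _
  rcases le_total x y with h | h
  · rw [abs_of_nonpos (by omega)]
    omega
  · rw [abs_of_nonneg (by omega)]
    omega

/-- Check of one row of the colour equations. -/
noncomputable def ckI1 (C : LT) (TN TD i : Nat) : Bool :=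
  fc (C.IM.get i) fun R =>
  fc (d96 R 0) fun x0 => fc (d96 R 1) fun x1 => fc (d96 R 2) fun x2 =>
  fc (d96 R 3) fun x3 => fc (d96 R 4) fun x4 => fc (d96 R 5) fun x5 =>
  Nat.beq (x0 + x1 + x2 + x3 + x4 + x5) (6 * C.T.OFF) &&
  Nat.ble (TN ^ 2 * (ab x0 C.T.OFF ^ 2 + ab x1 C.T.OFF ^ 2 + ab x2 C.T.OFF ^ 2 +
    ab x3 C.T.OFF ^ 2 + ab x4 C.T.OFF ^ 2 + ab x5 C.T.OFF ^ 2)) ((TD * d96 R 6) ^ 2)

/-- Check of the colour equations. -/
noncomputable def ckI (C : LT) (TN TD : Nat) : Bool :=
  (List.range 320).all fun i => ckI1 C TN TD i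

/-- Check of the sizes and of the multipliers of the inner pairs. -/
noncomputable def ckN (C : LT) (QL QH : Nat) : Bool :=
  Nat.beq (C.T.nf 10) 42 &&
  (List.range 5).all (fun s => Nat.beq (C.T.nf (2 * s)) 24 && Nat.beq (C.T.nf (2 * s + 1)) 18) &&
  (List.range 16).all (fun i => Nat.ble QL (d96 C.QT i) && Nat.ble (d96 C.QT i) QH)

theorem ok_of_ck {C : LT} {TN TD QL QH : Nat} (hp : ∀ t < 11, PsdT C.T t)
    (h1 : ckI C TN TD = true) (h2 : ckN C QL QH = true) (hT : 0 < TD) : Ok C TN TD QL QH := by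
  have hi : ∀ i < 320, ckI1 C TN TD i = true := by
    intro i hi
    simp only [ckI, List.all_eq_true, List.mem_range] at h1
    exact h1 i hi
  have hj : ∀ i < 320, (d96 (C.IM.get i) 0 + d96 (C.IM.get i) 1 + d96 (C.IM.get i) 2 +
      d96 (C.IM.get i) 3 + d96 (C.IM.get i) 4 + d96 (C.IM.get i) 5 = 6 * C.T.OFF) ∧
      TN ^ 2 * (ab (d96 (C.IM.get i) 0) C.T.OFF ^ 2 + ab (d96 (C.IM.get i) 1) C.T.OFF ^ 2 +
      ab (d96 (C.IM.get i) 2) C.T.OFF ^ 2 + ab (d96 (C.IM.get i) 3) C.T.OFF ^ 2 +
      ab (d96 (C.IM.get i) 4) C.T.OFF ^ 2 + ab (d96 (C.IM.get i) 5) C.T.OFF ^ 2) ≤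
        (TD * d96 (C.IM.get i) 6) ^ 2 := by
    intro i h
    have h3 := hi i h
    unfold ckI1 at h3
    simp only [fc_eq, Bool.and_eq_true] at h3
    exact ⟨Nat.eq_of_beq_eq_true h3.1, Nat.le_of_ble_eq_true h3.2⟩
  simp only [ckN, Bool.and_eq_true, List.all_eq_true, List.mem_range] at h2
  obtain ⟨⟨h3, h4⟩, h5⟩ := h2
  refine ⟨hp, ?_, Nat.eq_of_beq_eq_true h3, ?_, ?_, ?_, hT⟩
  · intro t ht
    have h6 := h4 (t / 2) (by omega)
    by_cases h7 : t % 2 = 0
    · rw [if_pos h7]
      have := Nat.eq_of_beq_eq_true h6.1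
      rwa [show 2 * (t / 2) = t by omega] at this
    · rw [if_neg h7]
      have := Nat.eq_of_beq_eq_true h6.2
      rwa [show 2 * (t / 2) + 1 = t by omega] at this
  · intro i h
    exact ⟨Nat.le_of_ble_eq_true (h5 i h).1, Nat.le_of_ble_eq_true (h5 i h).2⟩
  · intro i h
    have h6 := (hj i h).1
    have h7 : ((d96 (C.IM.get i) 0 + d96 (C.IM.get i) 1 + d96 (C.IM.get i) 2 +
      d96 (C.IM.get i) 3 + d96 (C.IM.get i) 4 + d96 (C.IM.get i) 5 : ℕ) : ℤ) =
      ((6 * C.T.OFF : ℕ) : ℤ) := by rw [h6]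
    push_cast at h7
    simp only [Fin.sum_univ_six]
    change ((d96 (C.IM.get i) 0 : ℕ) : ℤ) - C.T.OFF + ((d96 (C.IM.get i) 1 : ℕ) - C.T.OFF) +
      ((d96 (C.IM.get i) 2 : ℕ) - C.T.OFF) + ((d96 (C.IM.get i) 3 : ℕ) - C.T.OFF) +
      ((d96 (C.IM.get i) 4 : ℕ) - C.T.OFF) + ((d96 (C.IM.get i) 5 : ℕ) - C.T.OFF) = 0
    linarith
  · intro i h
    have h6 := (hj i h).2
    have h8 : ∀ x y : ℕ, ((x : ℤ) - y) ^ 2 = ((ab x y ^ 2 : ℕ) : ℤ) := by
      intro x y
      push_cast
      rw [ab_cast, sq_abs]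
    simp only [Fin.sum_univ_six, h8]
    have h7 : ((TN ^ 2 * (ab (d96 (C.IM.get i) 0) C.T.OFF ^ 2 +
      ab (d96 (C.IM.get i) 1) C.T.OFF ^ 2 +
      ab (d96 (C.IM.get i) 2) C.T.OFF ^ 2 + ab (d96 (C.IM.get i) 3) C.T.OFF ^ 2 +
      ab (d96 (C.IM.get i) 4) C.T.OFF ^ 2 + ab (d96 (C.IM.get i) 5) C.T.OFF ^ 2) : ℕ) : ℤ) ≤
        (((TD * d96 (C.IM.get i) 6) ^ 2 : ℕ) : ℤ) := by exact_mod_cast h6
    refine le_trans (le_of_eq ?_) h7
    push_cast
    rfl

end LS
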