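import Pool.Agent.Helper45.LS.T1

set_option autoImplicit false

/-!
Link certificates: evaluation of the integrand by the kernel.
-/

namespace LS

open KF
open KC (BT Tab fc fc_eq land_mod shift_div PsdT)

/-! Codes. -/

/-- Code of the first two vertices. -/
def rK (N : Nat) : Nat := Nat.add (Nat.mul 2 (Nat.land (Nat.shiftRight N 6) 63)) (Nat.land N 1)
/-- Code of the last two vertices. -/
def fK (N : Nat) : Nat :=
  Nat.add (Nat.mul 2 (Nat.land (Nat.shiftRight N 12) 63)) (Nat.land (Nat.shiftRight N 5) 1)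
/-- Code of the first three vertices. -/
def tK (N : Nat) : Nat := Nat.add (Nat.mul 8 (Nat.land (Nat.shiftRight N 6) 511)) (Nat.land N 7)
/-- Flag of the vertex 2. -/
def aK (N : Nat) : Nat :=
  Nat.add (Nat.mul 4 (Nat.land (Nat.shiftRight N 12) 7)) (Nat.land (Nat.shiftRight N 1) 3)
/-- Flag of the vertex 3. -/
def bK (N : Nat) : Nat :=
  Nat.add (Nat.mul 4 (Nat.land (Nat.shiftRight N 15) 7)) (Nat.land (Nat.shiftRight N 3) 3)
/-- Colour of the vertex 3. -/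
def cK (N : Nat) : Nat := Nat.land (Nat.shiftRight N 15) 7

theorem rK_eq (N : Nat) : rK N = LR.rt N := by
  unfold rK LR.rt
  rw [land63, land1, shift_div]
  change 2 * (N / 64 % 64) + N % 2 = _
  ring

theorem fK_eq (N : Nat) : fK N = LR.fB N := by
  unfold fK LR.fB
  rw [land63, land1, shift_div, shift_div]
  change 2 * (N / 4096 % 64) + N / 32 % 2 = _
  ring

theorem tK_eq (N : Nat) : tK N = LR.t3 N := by
  unfold tK LR.t3
  rw [land511, land7, shift_div]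
  change 8 * (N / 64 % 512) + N % 8 = _
  ring

theorem aK_eq (N : Nat) : aK N = LR.fA2 N := by
  unfold aK LR.fA2
  rw [land7, land3, shift_div, shift_div]
  change 4 * (N / 4096 % 8) + N / 2 % 4 = _
  ring

theorem bK_eq (N : Nat) : bK N = LR.fB2 N := by
  unfold bK LR.fB2
  rw [land7, land3, shift_div, shift_div]
  change 4 * (N / 32768 % 8) + N / 8 % 4 = _
  ring

theorem cK_eq (N : Nat) : cK N = LR.c3 N := by
  unfold cK LR.c3
  rw [land7, shift_div]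
  rfl

theorem rt_lt (N : Nat) : LR.rt N < 128 := by unfold LR.rt; omega
theorem fB_lt (N : Nat) : LR.fB N < 128 := by unfold LR.fB; omega
theorem t3_lt (N : Nat) : LR.t3 N < 4096 := by unfold LR.t3; omega

theorem rr_t3 (N : Nat) : rr (LR.t3 N) = LR.rt N := by
  rw [rr_eq]
  unfold LR.t3 LR.rt
  omega

theorem ff_t3 (N : Nat) : ff (LR.t3 N) = LR.fA2 N := by
  rw [ff_eq]
  unfold LR.t3 LR.fA2
  have h1 : (N / 64 % 512 * 8 + N % 8) / 512 = N / 64 % 512 / 64 := by omega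
  have h5 : N / 4096 = N / 64 / 64 := by rw [Nat.div_div_eq_div_mul]
  have h2 : N / 64 % 512 / 64 = N / 4096 % 8 := by
    rw [h5]
    generalize N / 64 = x
    omega
  have h3 : (N / 64 % 512 * 8 + N % 8) / 2 % 4 = N % 8 / 2 % 4 := by omega
  have h4 : N % 8 / 2 % 4 = N / 2 % 4 := by omega
  rw [h1, h2, h3, h4]
  ring

theorem t3_one (N : Nat) : Nat.land (LR.t3 N) 1 = LR.rt N % 2 := by
  rw [land1]
  unfold LR.t3 LR.rt
  omega

/-! Tables. -/

theorem z_eq : ∀ r < 128, LR.i0 0 r = b1 Zt r := by decide +kernel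
theorem d_eq : ∀ r < 128, LR.d0 0 r = b1 D0t r := by decide +kernel
theorem m_eq : ∀ r < 128, LR.m0 r = b1 M0t r := by decide +kernel
theorem e_eq : ∀ r < 128, ∀ j < 6, LR.eb r * LR.d0 j r = b1 EDt (128 * j + r) := by
  decide +kernel
theorem e_zero : ∀ r < 128, r % 2 = 0 → ∀ j < 6, b1 EDt (128 * j + r) = 0 := by
  decide +kernel
theorem mI_eq' : ∀ a < 64, ∀ b < 64, LR.mtI (64 * a + b) = b1 MIt (64 * a + b) := by
  decide +kernel
theorem mO_eq' : ∀ a < 64, ∀ b < 64, LR.mtO (64 * a + b) = b1 MOt (64 * a + b) := by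
  decide +kernel

theorem mI_eq (t : Nat) (h : t < 4096) : LR.mtI t = b1 MIt t := by
  have := mI_eq' (t / 64) (by omega) (t % 64) (by omega)
  rwa [show 64 * (t / 64) + t % 64 = t by omega] at this

theorem mO_eq (t : Nat) (h : t < 4096) : LR.mtO t = b1 MOt t := by
  have := mO_eq' (t / 64) (by omega) (t % 64) (by omega)
  rwa [show 64 * (t / 64) + t % 64 = t by omega] at this

/-! The integrand. -/

section
variable (C : LT)

/-- Positive part, all roots. -/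
noncomputable def P0 (r f t q : Nat) : Nat :=
  Nat.add (Nat.add (Nat.add C.VP (Nat.mul C.VQ (b1 Zt r)))
    (Nat.add (Nat.mul C.CI (b1 MIt t)) (Nat.mul C.CO (b1 MOt t))))
    (Nat.add (Nat.add (Nat.mul (Nat.mul 36 C.SC) (b1 D0t r)) C.T.OFF)
      (Nat.mul (Nat.mul 7 q) (Nat.mul (b1 Zt f) (Nat.land f 1))))
/-- Negative part, all roots. -/
noncomputable def N0 (r f q : Nat) : Nat :=
  Nat.add (Nat.add C.VM (Nat.mul (Nat.mul 36 C.SC) (Nat.land r 1)))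
    (Nat.add (C.T.qe 10 (i0 r) (i0 f)) (Nat.mul (Nat.mul 2 q) (b1 Zt f)))

/-- Sum of the multipliers of the best class. -/
noncomputable def sO (y : Nat) : Nat :=
  Nat.add (Nat.add (Nat.add (d96 C.OT (6 * y + 0)) (d96 C.OT (6 * y + 1)))
    (Nat.add (d96 C.OT (6 * y + 2)) (d96 C.OT (6 * y + 3))))
    (Nat.add (d96 C.OT (6 * y + 4)) (d96 C.OT (6 * y + 5)))
/-- Sum of the multipliers over the blocks. -/
noncomputable def sD (y f : Nat) : Nat :=
  Nat.add (Nat.add (Nat.add (Nat.mul (d96 C.OT (6 * y + 0)) (b1 EDt (128 * 0 + f)))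
    (Nat.mul (d96 C.OT (6 * y + 1)) (b1 EDt (128 * 1 + f))))
    (Nat.add (Nat.mul (d96 C.OT (6 * y + 2)) (b1 EDt (128 * 2 + f)))
    (Nat.mul (d96 C.OT (6 * y + 3)) (b1 EDt (128 * 3 + f)))))
    (Nat.add (Nat.mul (d96 C.OT (6 * y + 4)) (b1 EDt (128 * 4 + f)))
    (Nat.mul (d96 C.OT (6 * y + 5)) (b1 EDt (128 * 5 + f))))

/-- Positive part, canonical roots. -/
noncomputable def P1 (m s : Nat) : Nat :=
  Nat.add (Nat.add C.T.OFF C.T.OFF) (Nat.add (Nat.mul m C.A) s)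
/-- Negative part, canonical roots. -/
noncomputable def N1 (y f a b m R c s : Nat) : Nat :=
  Nat.add (Nat.add (C.T.qe y a b) (Nat.mul (Nat.mul m C.B) (b1 M0t f)))
    (Nat.add s (Nat.add (d96 R c) (d96 R 6)))

/-- Positive part. -/
noncomputable def PP (N : Nat) : Nat :=
  P0 C (LR.rt N) (LR.fB N) (LR.t3 N) (d96 C.QT (qy (LR.rt N))) +
  if ty (LR.rt N) < 10 then
    P1 C (d96 C.MT (ty (LR.rt N))) (sD C (ty (LR.rt N)) (LR.fB N)) else 0
/-- Negative part. -/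
noncomputable def NN (N : Nat) : Nat :=
  N0 C (LR.rt N) (LR.fB N) (d96 C.QT (qy (LR.rt N))) +
  if ty (LR.rt N) < 10 then
    N1 C (ty (LR.rt N)) (LR.fB N) (fx (LR.rt N % 2) (LR.fA2 N)) (fx (LR.rt N % 2) (LR.fB2 N))
      (d96 C.MT (ty (LR.rt N)))
      (C.IM.get (Nat.add (Nat.mul 32 (ty (LR.rt N))) (fx (LR.rt N % 2) (LR.fA2 N)))) (LR.c3 N)
      (sO C (ty (LR.rt N)) * b1 EDt (128 * 0 + LR.fB N)) else 0

theorem o_eq (N : Nat) (hy : ty (LR.rt N) < 10) :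
    (∑ j : Fin 6, (ofLT C).Oo (LR.rt N) j *
      ((LR.eb (LR.fB N) : ℤ) * ((LR.d0 0 (LR.fB N) : ℤ) - (LR.d0 j (LR.fB N) : ℤ)))) =
    ((sO C (ty (LR.rt N)) * b1 EDt (128 * 0 + LR.fB N) : ℕ) : ℤ) -
      (sD C (ty (LR.rt N)) (LR.fB N) : ℤ) := by
  have hr := rt_lt N
  have hf := fB_lt N
  have hO : ∀ j : ℕ, (ofLT C).Oo (LR.rt N) j = (d96 C.OT (6 * ty (LR.rt N) + j) : ℤ) := by
    intro j
    change (if LR.rt N < 128 ∧ ty (LR.rt N) < 10 then _ else 0) = _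
    rw [if_pos ⟨hr, hy⟩]
  have y : ∀ j < 6, ((LR.eb (LR.fB N) : ℤ) * (LR.d0 j (LR.fB N) : ℤ)) =
      (b1 EDt (128 * j + LR.fB N) : ℤ) := by
    intro j hj
    rw [← e_eq _ hf j hj]
    push_cast
    rfl
  have z : ∀ j : Fin 6, (ofLT C).Oo (LR.rt N) j *
      ((LR.eb (LR.fB N) : ℤ) * ((LR.d0 0 (LR.fB N) : ℤ) - (LR.d0 j (LR.fB N) : ℤ))) =
      (d96 C.OT (6 * ty (LR.rt N) + j) : ℤ) * (b1 EDt (128 * 0 + LR.fB N) : ℤ) -
      (d96 C.OT (6 * ty (LR.rt N) + j) : ℤ) * (b1 EDt (128 * j + LR.fB N) : ℤ) := by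
    intro j
    rw [hO, ← y 0 (by norm_num), ← y j j.2]
    ring
  rw [Finset.sum_congr rfl fun j _ => z j]
  simp only [Fin.sum_univ_six]
  unfold sO sD
  simp only [Nat.add_eq, Nat.mul_eq]
  push_cast
  change ((d96 C.OT (6 * ty (LR.rt N) + 0) : ℕ) : ℤ) * _ -
      ((d96 C.OT (6 * ty (LR.rt N) + 0) : ℕ) : ℤ) * ((b1 EDt (128 * 0 + LR.fB N) : ℕ) : ℤ) +
    (((d96 C.OT (6 * ty (LR.rt N) + 1) : ℕ) : ℤ) * _ -
      ((d96 C.OT (6 * ty (LR.rt N) + 1) : ℕ) : ℤ) * ((b1 EDt (128 * 1 + LR.fB N) : ℕ) : ℤ)) +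
    (((d96 C.OT (6 * ty (LR.rt N) + 2) : ℕ) : ℤ) * _ -
      ((d96 C.OT (6 * ty (LR.rt N) + 2) : ℕ) : ℤ) * ((b1 EDt (128 * 2 + LR.fB N) : ℕ) : ℤ)) +
    (((d96 C.OT (6 * ty (LR.rt N) + 3) : ℕ) : ℤ) * _ -
      ((d96 C.OT (6 * ty (LR.rt N) + 3) : ℕ) : ℤ) * ((b1 EDt (128 * 3 + LR.fB N) : ℕ) : ℤ)) +
    (((d96 C.OT (6 * ty (LR.rt N) + 4) : ℕ) : ℤ) * _ -
      ((d96 C.OT (6 * ty (LR.rt N) + 4) : ℕ) : ℤ) * ((b1 EDt (128 * 4 + LR.fB N) : ℕ) : ℤ)) +
    (((d96 C.OT (6 * ty (LR.rt N) + 5) : ℕ) : ℤ) * _ -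
      ((d96 C.OT (6 * ty (LR.rt N) + 5) : ℕ) : ℤ) * ((b1 EDt (128 * 5 + LR.fB N) : ℕ) : ℤ)) = _
  ring

theorem h_eq (N : Nat) : (ofLT C).h N = (PP C N : ℤ) - (NN C N : ℤ) := by
  have hr := rt_lt N
  have hf := fB_lt N
  have ht := t3_lt N
  have w1 : (Nat.land (LR.rt N) 1 : ℕ) = LR.eb (LR.rt N) := land1 _
  have w2 : (Nat.land (LR.fB N) 1 : ℕ) = LR.eb (LR.fB N) := land1 _
  have hS0 : (ofLT C).S0 (LR.rt N) (LR.fB N) =
      (C.T.qe 10 (i0 (LR.rt N)) (i0 (LR.fB N)) : ℤ) - C.T.OFF := rfl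
  have hQ : (ofLT C).Qz (LR.rt N) = (d96 C.QT (qy (LR.rt N)) : ℤ) := rfl
  have hA : (ofLT C).A = C.A := rfl
  have hB : (ofLT C).B = C.B := rfl
  have hVN : (ofLT C).VN = (C.VP : ℤ) - C.VM := rfl
  have hVQ : (ofLT C).VQ = C.VQ := rfl
  have hCI : (ofLT C).CPi = C.CI := rfl
  have hCO : (ofLT C).CPo = C.CO := rfl
  have hSC : (ofLT C).SC = C.SC := rfl
  by_cases hy : ty (LR.rt N) < 10
  · have hS2 : (ofLT C).S2 (LR.rt N) (LR.fA2 N) (LR.fB2 N) =
        (C.T.qe (ty (LR.rt N)) (fx (LR.rt N % 2) (LR.fA2 N)) (fx (LR.rt N % 2) (LR.fB2 N)) : ℤ) -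
          C.T.OFF := by
      change (if LR.rt N < 128 ∧ ty (LR.rt N) < 10 then _ else 0) = _
      rw [if_pos ⟨hr, hy⟩]
      rfl
    have hM : (ofLT C).Mm (LR.rt N) = (d96 C.MT (ty (LR.rt N)) : ℤ) := by
      change (if LR.rt N < 128 ∧ ty (LR.rt N) < 10 then _ else 0) = _
      rw [if_pos ⟨hr, hy⟩]
    have hR : irow C (LR.t3 N) = C.IM.get (Nat.add (Nat.mul 32 (ty (LR.rt N)))
        (fx (LR.rt N % 2) (LR.fA2 N))) := by
      unfold irow
      rw [rr_t3, ff_t3, t3_one]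
    have hI : (ofLT C).Ii (LR.t3 N) (LR.c3 N) = (d96 (C.IM.get (Nat.add (Nat.mul 32
        (ty (LR.rt N))) (fx (LR.rt N % 2) (LR.fA2 N)))) (LR.c3 N) : ℤ) - C.T.OFF := by
      change (if LR.t3 N < 4096 ∧ ty (rr (LR.t3 N)) < 10 then _ else 0) = _
      rw [rr_t3, if_pos ⟨ht, hy⟩, hR]
    have hN : (ofLT C).NI (LR.t3 N) = (d96 (C.IM.get (Nat.add (Nat.mul 32
        (ty (LR.rt N))) (fx (LR.rt N % 2) (LR.fA2 N)))) 6 : ℤ) := by
      change (if LR.t3 N < 4096 ∧ ty (rr (LR.t3 N)) < 10 then _ else 0) = _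
      rw [rr_t3, if_pos ⟨ht, hy⟩, hR]
    unfold LR.Cert.h PP NN
    rw [if_pos hy, if_pos hy, hS0, hS2, hM, hI, hN, hQ, hA, hB, hVN, hVQ, hCI, hCO, hSC,
      o_eq C N hy, z_eq _ hr, z_eq _ hf, d_eq _ hr, m_eq _ hf, mI_eq _ ht, mO_eq _ ht]
    unfold P0 N0 P1 N1
    rw [w1, w2]
    simp only [Nat.add_eq, Nat.mul_eq]
    push_cast
    ring
  · have hS2 : (ofLT C).S2 (LR.rt N) (LR.fA2 N) (LR.fB2 N) = 0 := by
      change (if LR.rt N < 128 ∧ ty (LR.rt N) < 10 then _ else 0) = _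
      rw [if_neg fun g => hy g.2]
    have hM : (ofLT C).Mm (LR.rt N) = 0 := by
      change (if LR.rt N < 128 ∧ ty (LR.rt N) < 10 then _ else 0) = _
      rw [if_neg fun g => hy g.2]
    have hO : ∀ j : ℕ, (ofLT C).Oo (LR.rt N) j = 0 := by
      intro j
      change (if LR.rt N < 128 ∧ ty (LR.rt N) < 10 then _ else 0) = _
      rw [if_neg fun g => hy g.2]
    have hI : (ofLT C).Ii (LR.t3 N) (LR.c3 N) = 0 := by
      change (if LR.t3 N < 4096 ∧ ty (rr (LR.t3 N)) < 10 then _ else 0) = _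
      rw [rr_t3, if_neg fun g => hy g.2]
    have hN : (ofLT C).NI (LR.t3 N) = 0 := by
      change (if LR.t3 N < 4096 ∧ ty (rr (LR.t3 N)) < 10 then _ else 0) = _
      rw [rr_t3, if_neg fun g => hy g.2]
    unfold LR.Cert.h PP NN
    rw [if_neg hy, if_neg hy, hS0, hS2, hM, hI, hN, hQ, hA, hB, hVN, hVQ, hCI, hCO, hSC,
      z_eq _ hr, z_eq _ hf, d_eq _ hr, m_eq _ hf, mI_eq _ ht, mO_eq _ ht]
    simp only [hO, zero_mul, Finset.sum_const_zero]
    unfold P0 N0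
    rw [w1, w2]
    simp only [Nat.add_eq, Nat.mul_eq]
    push_cast
    ring

/-! The kernel version. -/

/-- Sum of the multipliers over the blocks, kernel version. -/
noncomputable def sDK (y f e : Nat) : Nat :=
  Bool.rec (motive := fun _ => Nat) (sD C y f) 0 (Nat.beq e 0)
/-- Sum of the multipliers of the best class, kernel version. -/
noncomputable def sOK (y f e : Nat) : Nat :=
  Bool.rec (motive := fun _ => Nat) (Nat.mul (sO C y) (b1 EDt f)) 0 (Nat.beq e 0)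

theorem sDK_eq {y f : Nat} (hf : f < 128) : sDK C y f (Nat.land f 1) = sD C y f := by
  unfold sDK
  rw [land1]
  cases h : Nat.beq (f % 2) 0
  · rfl
  · have h1 := Nat.eq_of_beq_eq_true h
    have h2 := e_zero f hf h1
    change 0 = sD C y f
    unfold sD
    rw [h2 0 (by norm_num), h2 1 (by norm_num), h2 2 (by norm_num), h2 3 (by norm_num),
      h2 4 (by norm_num), h2 5 (by norm_num)]
    simp

theorem sOK_eq {y f : Nat} (hf : f < 128) :
    sOK C y f (Nat.land f 1) = sO C y * b1 EDt (128 * 0 + f) := by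
  have h0 : 128 * 0 + f = f := by omega
  unfold sOK
  rw [land1, h0]
  cases h : Nat.beq (f % 2) 0
  · rfl
  · have h1 := Nat.eq_of_beq_eq_true h
    have h2 := e_zero f hf h1 0 (by norm_num)
    rw [h0] at h2
    change 0 = _
    rw [h2]
    simp

/-- Evaluation. -/
noncomputable def evl (N : Nat) (k : Nat → Nat → Bool) : Bool :=
  fc (rK N) fun r => fc (fK N) fun f => fc (ty r) fun y => fc (d96 C.QT (qy r)) fun q =>
  fc (P0 C r f (tK N) q) fun p => fc (N0 C r f q) fun n =>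
  Bool.rec (motive := fun _ => Bool) (k p n)
    (fc (Nat.land r 1) fun g => fc (fx g (aK N)) fun a => fc (fx g (bK N)) fun b =>
      fc (C.IM.get (Nat.add (Nat.mul 32 y) a)) fun R => fc (d96 C.MT y) fun m =>
      fc (Nat.land f 1) fun e =>
      fc (Nat.add p (P1 C m (sDK C y f e))) fun p' =>
      fc (Nat.add n (N1 C y f a b m R (cK N) (sOK C y f e))) fun n' => k p' n')
    (Nat.ble y 9)

theorem evl_eq (N : Nat) (k : Nat → Nat → Bool) : evl C N k = k (PP C N) (NN C N) := by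
  unfold evl
  simp only [fc_eq, rK_eq, fK_eq, tK_eq, aK_eq, bK_eq, cK_eq]
  rw [sDK_eq C (fB_lt N), sOK_eq C (fB_lt N)]
  unfold PP NN
  by_cases hy : ty (LR.rt N) < 10
  · have h : Nat.ble (ty (LR.rt N)) 9 = true := by rw [Nat.ble_eq]; omega
    rw [h, if_pos hy, if_pos hy, land1]
    rfl
  · have h : Nat.ble (ty (LR.rt N)) 9 = false := by
      cases h1 : Nat.ble (ty (LR.rt N)) 9
      · rfl
      · exact absurd (Nat.le_of_ble_eq_true h1) (by omega)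
    rw [h, if_neg hy, if_neg hy]
    rfl

/-- Code of an arrangement, kernel version. -/
def cdK (μ e : Nat) : Nat :=
  Nat.add (KC.ent PMT 6 63 (Nat.add (Nat.mul 64 (Nat.shiftRight e 12)) μ))
    (Nat.mul 64 (Nat.land e 4095))

theorem cdK_eq (μ e : Nat) : cdK μ e = cd μ e := by
  unfold cdK cd pmT
  rw [land4095, shift_div]
  rfl

/-- Sum over the arrangements. -/
noncomputable def run (μ : Nat) (l : List Nat) : Nat → Nat → Bool :=
  List.rec (motive := fun _ => Nat → Nat → Bool) (fun p n => Nat.ble n p)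
    (fun e _ ih p n => fc (cdK μ e) fun N => evl C N fun a b =>
      fc (Nat.add p a) fun p' => fc (Nat.add n b) fun n' => ih p' n') l

theorem run_cons (μ e : Nat) (l : List Nat) (p n : Nat) :
    run C μ (e :: l) p n = run C μ l (p + PP C (cd μ e)) (n + NN C (cd μ e)) := by
  change (fc (cdK μ e) fun N => evl C N fun a b =>
      fc (Nat.add p a) fun p' => fc (Nat.add n b) fun n' => run C μ l p' n') = _
  rw [fc_eq, evl_eq, fc_eq, fc_eq, cdK_eq]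
  rfl

theorem run_spec (μ : Nat) : ∀ (l : List Nat) (p n : Nat), run C μ l p n = true →
    (n : ℤ) ≤ p + (l.map fun e => (ofLT C).h (cd μ e)).sum
  | [], p, n, h => by
    have := Nat.le_of_ble_eq_true (show Nat.ble n p = true from h)
    simp only [List.map_nil, List.sum_nil, add_zero]
    exact_mod_cast this
  | e :: l, p, n, h => by
    rw [run_cons] at h
    have := run_spec μ l _ _ h
    push_cast at this
    simp only [List.map_cons, List.sum_cons, h_eq]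
    simp only [h_eq] at this
    linarith

/-- Masks of the representatives. -/
def MU (k : Nat) : List Nat :=
  [[0, 1, 3, 11, 12, 13, 30],
   [0, 1, 3, 4, 5, 11, 12, 13, 20, 21, 22, 30],
   [0, 1, 2, 3, 6, 10, 11, 12, 13, 14, 30, 32, 33, 34, 35, 38, 44, 45],
   [0, 1, 2, 3, 6, 10, 11, 12, 13, 14, 30, 32, 33, 34, 35, 38, 44, 45],
   [0, 1, 2, 3, 6, 10, 11, 12, 13, 14, 30, 32, 33, 34, 35, 38, 44, 45],
   [0, 1, 3, 8, 9, 11, 12, 13, 24, 26, 30, 56],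
   [0, 1, 3, 4, 5, 8, 9, 11, 12, 13, 16, 17, 18, 19, 20, 21, 22, 24, 26, 28, 30, 48, 49, 51, 56],
   [0, 1, 3, 4, 5, 8, 9, 11, 12, 13, 16, 17, 18, 19, 20, 21, 22, 24, 26, 28, 30, 48, 49, 51, 56],
   [0, 1, 2, 3, 6, 8, 9, 10, 11, 12, 13, 14, 24, 26, 30, 32, 33, 34, 35, 38, 40, 41, 44, 45, 56],
   [0, 1, 3, 4, 5, 8, 9, 11, 12, 13, 16, 17, 18, 19, 20, 21, 22, 24, 26, 28, 30, 48, 49, 51, 56],
   [0, 1, 3, 11, 12, 13, 30],
   [0, 1, 3, 4, 5, 11, 12, 13, 20, 21, 22, 30],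
   [0, 1, 3, 4, 5, 11, 12, 13, 20, 21, 22, 30],
   [0, 1, 2, 3, 6, 11, 12, 13, 14, 30, 33, 35, 45],
   [0, 1, 2, 3, 6, 10, 11, 12, 13, 14, 30, 32, 33, 34, 35, 38, 44, 45],
   [0, 1, 2, 3, 4, 5, 6, 10, 11, 12, 13, 14, 20, 21, 22, 30, 32, 33, 34, 35, 36, 37, 38, 44, 45],
   [0, 1, 2, 3, 4, 5, 6, 10, 11, 12, 13, 14, 20, 21, 22, 30, 32, 33, 34, 35, 36, 37, 38, 44, 45],
   [0, 1, 2, 3, 6, 11, 12, 13, 14, 30, 33, 35, 45],
   [0, 1, 2, 3, 6, 10, 11, 12, 13, 14, 30, 32, 33, 34, 35, 38, 44, 45],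
   [0, 1, 2, 3, 4, 5, 6, 10, 11, 12, 13, 14, 18, 19, 22, 30, 32, 33, 34, 35, 36, 37, 38, 44, 45, 50, 51]].getD k []

theorem mu_ok : ∀ k < 20, ∀ μ < 64, RK.testBit (64 * k + μ) = true → μ ∈ MU k := by
  decide +kernel

/-- The check of one colour pattern. -/
noncomputable def chk (k : Nat) : Bool := (MU k).all fun μ => run C μ (XL k) 0 0

theorem S_nn (h : ∀ k < 20, chk C k = true) {m : Fin 4 → Fin 4 → Bool} (hm : Lk m)
    (c : Fin 4 → Fin 6) : 0 ≤ S (ofLT C).h m c := by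
  refine S_nonneg (fun k hk μ hμ hr => ?_) hm c
  have h1 := h k hk
  simp only [chk, List.all_eq_true] at h1
  have h2 := run_spec C μ _ _ _ (h1 μ (mu_ok k hk μ hμ hr))
  rw [S_list _ hk hμ]
  simpa using h2

end

end LS
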