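import Pool.Agent.Helper45.LS.T2

set_option autoImplicit false

/-!
Link certificates: the pointwise inequality from the kernel check.
-/

namespace LS

open KF Finset

theorem AL_ne : AL ≠ [] := by decide
theorem AL_inj : ∀ b ∈ AL, Function.Injective b := by
  intro b hb
  unfold AL at hb
  rw [List.mem_map] at hb
  obtain ⟨s, hs, rfl⟩ := hb
  exact fun x y h => aF_inj s (List.mem_range.1 hs) x y h
theorem AL_D6 : ∀ b ∈ AL, ∀ i j k, D6 (b i) (b j) (b k) = D6 i j k := by
  intro b hb
  unfold AL at hb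
  rw [List.mem_map] at hb
  obtain ⟨s, hs, rfl⟩ := hb
  exact aF_D6 s (List.mem_range.1 hs)
theorem AL_zero : ∀ b ∈ AL, b 0 = 0 := by
  intro b hb
  unfold AL at hb
  rw [List.mem_map] at hb
  obtain ⟨s, hs, rfl⟩ := hb
  exact aF_zero s (List.mem_range.1 hs)

/-- The orderings as permutations. -/
noncomputable def pE (t : Fin 24) : Equiv.Perm (Fin 4) :=
  Equiv.ofBijective (pF t.1) (Finite.injective_iff_bijective.1 fun x y h => pF_inj t.1 t.2 x y h)

theorem pE_bij : Function.Bijective pE := by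
  rw [Fintype.bijective_iff_injective_and_card]
  refine ⟨fun t u h => ?_, ?_⟩
  · apply Fin.ext
    refine pF_ne t.1 t.2 u.1 u.2 fun x => ?_
    have : pE t x = pE u x := by rw [h]
    exact this
  · rw [Fintype.card_fin, Fintype.card_perm, Fintype.card_fin]
    rfl

theorem perm_sum (F : (Fin 4 → Fin 4) → ℤ) :
    ∑ p : Equiv.Perm (Fin 4), F (fun s => p s) = ∑ t ∈ range 24, F (pF t) := by
  rw [← pE_bij.sum_comp (fun p : Equiv.Perm (Fin 4) => F (fun s => p s)), Finset.sum_range]
  rfl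

section
variable {V : Type} (E : V → V → V → Bool) (κ : V → Fin 6) (v : V)

theorem cm4_mk (φ : Fin 4 → V) :
    LR.cm4 E κ v φ = mk (fun i j => E v (φ i) (φ j)) (fun i => κ (φ i)) := by
  unfold LR.cm4 LR.pk4 mk mkm mkc
  ring

theorem lk_E (hE : K4m E) (φ : Fin 4 → V) : Lk (fun i j => E v (φ i) (φ j)) where
  sym := fun _ _ => hE.s23 _ _ _
  irr := fun _ => by rw [hE.s12, hE.s23]; exact hE.irr _ _
  free := fun _ _ _ h1 h2 h3 => hE.free _ _ _ _ h1 h2 h3

/-- The symmetrised integrand is nonnegative. -/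
theorem point (hE : K4m E) (C : LT) (hc : ∀ k < 20, chk C k = true) (φ : Fin 4 → V) :
    0 ≤ (AL.map fun b => ∑ p : Equiv.Perm (Fin 4),
      (ofLT C).h (LR.cm4 E (fun x => b (κ x)) v (fun s => φ (p s)))).sum := by
  have h := S_nn C hc (lk_E E v hE φ) (fun i => κ (φ i))
  unfold S at h
  unfold AL
  rw [List.map_map, ← sum_rl]
  refine h.trans_eq (sum_congr rfl fun s _ => ?_)
  simp only [Function.comp_apply, cm4_mk]
  rw [perm_sum (fun q => (ofLT C).h (mk (fun i j => E v (φ (q i)) (φ (q j)))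
    (fun i => aF s (κ (φ (q i))))))]

end

end LS
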